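import Mathlib

/-! Sums `2 ^ a₁ + 3 ^ a₂ + ⋯ + p_L ^ a_L`: bit masks. -/

set_option autoImplicit false

namespace Pool.Agent.X32.Pow

open Finset

/-- `n` is the sum of positive powers of the first `L` primes, each used once -/
def Rep (L n : ℕ) : Prop := ∃ α : ℕ → ℕ, (∀ j, 1 ≤ α j) ∧ n = ∑ j ∈ range L, Nat.nth Nat.Prime j ^ α j

lemma rep_zero : Rep 0 0 := ⟨fun _ => 1, fun _ => le_rfl, by simp⟩

lemma rep_step {L m : ℕ} (h : Rep L m) (a : ℕ) (ha : 1 ≤ a) : Rep (L + 1) (m + Nat.nth Nat.Prime L ^ a) := by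
  obtain ⟨α, h1, h2⟩ := h
  refine ⟨Function.update α L a, fun j => ?_, ?_⟩
  · by_cases hj : j = L
    · subst hj
      simpa using ha
    · rw [Function.update_of_ne hj]
      exact h1 j
  · rw [sum_range_succ, Function.update_self, h2]
    congr 1
    apply sum_congr rfl
    intro j hj
    rw [mem_range] at hj
    rw [Function.update_of_ne (by omega)]

/-- shifts of `M` by `p, p ^ 2, …, p ^ k` -/
def stp (M p : ℕ) : ℕ → ℕ
  | 0 => 0
  | k + 1 => stp M p k ||| (M <<< (p ^ (k + 1)))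

/-- all the bits of `M` are representable by `L` primes -/
def Ok (L M : ℕ) : Prop := ∀ n, M.testBit n = true → Rep L n

lemma ok_zero : Ok 0 1 := by
  intro n hn
  have : n = 0 := by
    by_contra h
    rw [Nat.testBit_one_eq_true_iff_self_eq_zero] at hn
    exact h hn
  subst this
  exact rep_zero

lemma ok_stp {L M p : ℕ} (h : Ok L M) (hp : Nat.nth Nat.Prime L = p) (k : ℕ) : Ok (L + 1) (stp M p k) := by
  induction k with
  | zero =>
    intro n hn
    simp [stp] at hn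
  | succ k ih =>
    intro n hn
    rw [stp, Nat.testBit_or, Bool.or_eq_true] at hn
    rcases hn with hn | hn
    · exact ih n hn
    · rw [Nat.testBit_shiftLeft, Bool.and_eq_true, decide_eq_true_eq] at hn
      have h1 := rep_step (h _ hn.2) (k + 1) (by omega)
      rw [hp] at h1
      have e : n - p ^ (k + 1) + p ^ (k + 1) = n := by
        have := hn.1
        omega
      rwa [e] at h1

lemma nth_of {p c : ℕ} (hp : Nat.Prime p) (hc : Nat.count Nat.Prime p = c) : Nat.nth Nat.Prime c = p := by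
  rw [← hc]
  exact Nat.nth_count hp

lemma p0 : Nat.nth Nat.Prime 0 = 2 := nth_of (by norm_num) (by decide)
lemma p1 : Nat.nth Nat.Prime 1 = 3 := nth_of (by norm_num) (by decide)
lemma p2 : Nat.nth Nat.Prime 2 = 5 := nth_of (by norm_num) (by decide)
lemma p3 : Nat.nth Nat.Prime 3 = 7 := nth_of (by norm_num) (by decide)
lemma p4 : Nat.nth Nat.Prime 4 = 11 := nth_of (by norm_num) (by decide)
lemma p5 : Nat.nth Nat.Prime 5 = 13 := nth_of (by norm_num) (by decide)
lemma p6 : Nat.nth Nat.Prime 6 = 17 := nth_of (by norm_num) (by decide)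
lemma p7 : Nat.nth Nat.Prime 7 = 19 := nth_of (by norm_num) (by decide)
lemma p8 : Nat.nth Nat.Prime 8 = 23 := nth_of (by norm_num) (by decide)
lemma p9 : Nat.nth Nat.Prime 9 = 29 := nth_of (by norm_num) (by decide)
lemma p10 : Nat.nth Nat.Prime 10 = 31 := nth_of (by norm_num) (by decide)

/-- the mask of the sums with ten primes -/
def B10 : ℕ :=
  stp (stp (stp (stp (stp (stp (stp (stp (stp (stp 1 2 22) 3 14) 5 9) 7 7) 11 6) 13 6) 17 5) 19 5) 23 4) 29 4

lemma ok10 : Ok 10 B10 :=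
  ok_stp (ok_stp (ok_stp (ok_stp (ok_stp (ok_stp (ok_stp (ok_stp (ok_stp (ok_stp ok_zero p0 22) p1 14) p2 9) p3 7)
    p4 6) p5 6) p6 5) p7 5) p8 4) p9 4

/-- `(4 ^ K - 1) / 3` -/
def pat (K : ℕ) : ℕ := (4 ^ K - 1) / 3

lemma pat_succ (K : ℕ) : pat (K + 1) = 4 * pat K + 1 := by
  unfold pat
  have h : 4 ^ K % 3 = 1 := by
    rw [Nat.pow_mod]
    norm_num
  have h1 : 1 ≤ 4 ^ K := Nat.one_le_pow _ _ (by norm_num)
  rw [pow_succ]
  omega

lemma pat_bit (K : ℕ) : ∀ i, i < K → (pat K).testBit (2 * i) = true := by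
  induction K with
  | zero => intro i hi; omega
  | succ K ih =>
    intro i hi
    rw [pat_succ]
    rcases Nat.eq_zero_or_pos i with h | h
    · subst h
      rw [Nat.mul_zero, Nat.testBit_zero]
      simp
      omega
    · obtain ⟨j, rfl⟩ : ∃ j, i = j + 1 := ⟨i - 1, by omega⟩
      have h1 := ih j (by omega)
      have e : 2 * (j + 1) = 2 * j + 1 + 1 := by ring
      rw [e, Nat.testBit_succ, Nat.testBit_succ]
      have e2 : (4 * pat K + 1) / 2 / 2 = pat K := by omega
      rw [e2]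
      exact h1

lemma big_check : (B10 >>> 245) &&& (pat 2500000) = pat 2500000 := by
  decide +kernel

lemma base10 (n : ℕ) (h1 : 245 ≤ n) (h2 : n ≤ 5000243) (h3 : n % 2 = 1) : Rep 10 n := by
  apply ok10
  have h4 := pat_bit 2500000 ((n - 245) / 2) (by omega)
  rw [← big_check, Nat.testBit_and, Bool.and_eq_true, Nat.testBit_shiftRight] at h4
  have e : 245 + 2 * ((n - 245) / 2) = n := by omega
  rw [e] at h4
  exact h4.1

/-- small masks, for `1, …, 11` primes -/
def s1 : ℕ := stp 1 2 8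
def s2 : ℕ := stp s1 3 5
def s3 : ℕ := stp s2 5 3
def s4 : ℕ := stp s3 7 2
def s5 : ℕ := stp s4 11 2
def s6 : ℕ := stp s5 13 2
def s7 : ℕ := stp s6 17 2
def s8 : ℕ := stp s7 19 1
def s9 : ℕ := stp s8 23 1
def s10 : ℕ := stp s9 29 1
def s11 : ℕ := stp s10 31 1

lemma o1 : Ok 1 s1 := ok_stp ok_zero p0 8
lemma o2 : Ok 2 s2 := ok_stp o1 p1 5
lemma o3 : Ok 3 s3 := ok_stp o2 p2 3
lemma o4 : Ok 4 s4 := ok_stp o3 p3 2
lemma o5 : Ok 5 s5 := ok_stp o4 p4 2
lemma o6 : Ok 6 s6 := ok_stp o5 p5 2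
lemma o7 : Ok 7 s7 := ok_stp o6 p6 2
lemma o8 : Ok 8 s8 := ok_stp o7 p7 1
lemma o9 : Ok 9 s9 := ok_stp o8 p8 1
lemma o10 : Ok 10 s10 := ok_stp o9 p9 1
lemma o11 : Ok 11 s11 := ok_stp o10 p10 1

/-- the exceptions -/
def exc : List ℕ := [1, 3, 6, 9, 14, 15, 20, 21, 26, 27, 33]

lemma small_check : ((List.range 280).all fun n => n == 0 || exc.contains n ||
    (s1.testBit n || s2.testBit n || s3.testBit n || s4.testBit n || s5.testBit n || s6.testBit n ||
      s7.testBit n || s8.testBit n || s9.testBit n || s10.testBit n || s11.testBit n)) = true := by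
  decide +kernel

lemma small (n : ℕ) (h0 : 0 < n) (h1 : n < 280) (h2 : n ∉ exc) : ∃ L, 1 ≤ L ∧ Rep L n := by
  have h := small_check
  rw [List.all_eq_true] at h
  have h3 := h n (List.mem_range.2 h1)
  simp only [Bool.or_eq_true, beq_iff_eq, List.contains_iff_mem] at h3
  rcases h3 with (h3 | h3) | h3
  · omega
  · exact absurd h3 h2
  · rcases h3 with (((((((((h | h) | h) | h) | h) | h) | h) | h) | h) | h) | h
    · exact ⟨1, by norm_num, o1 n h⟩
    · exact ⟨2, by norm_num, o2 n h⟩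
    · exact ⟨3, by norm_num, o3 n h⟩
    · exact ⟨4, by norm_num, o4 n h⟩
    · exact ⟨5, by norm_num, o5 n h⟩
    · exact ⟨6, by norm_num, o6 n h⟩
    · exact ⟨7, by norm_num, o7 n h⟩
    · exact ⟨8, by norm_num, o8 n h⟩
    · exact ⟨9, by norm_num, o9 n h⟩
    · exact ⟨10, by norm_num, o10 n h⟩
    · exact ⟨11, by norm_num, o11 n h⟩

end Pool.Agent.X32.Pow
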