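import Pool.Agent.X32.Pow.Base

/-! The sums of the `p_j ^ 2 - p_j`, `j < L`, are at least `p_L ^ 2 - p_L`. -/

set_option autoImplicit false

namespace Pool.Agent.X32.Pow

open Finset

/-- the `j`-th prime, `p 0 = 2` -/
noncomputable def pr (j : ℕ) : ℕ := Nat.nth Nat.Prime j

lemma pr_prime (j : ℕ) : (pr j).Prime := Nat.prime_nth_prime j

lemma pr_lt {i j : ℕ} (h : i < j) : pr i < pr j :=
  Nat.nth_strictMono Nat.infinite_setOfPred_prime h

lemma pr_odd {j : ℕ} (hj : 1 ≤ j) : pr j % 2 = 1 := by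
  have h1 : pr 0 < pr j := pr_lt (by omega)
  have h0 : pr 0 = 2 := p0
  rcases (pr_prime j).eq_two_or_odd with h | h
  · omega
  · exact h

lemma pr_ge (j : ℕ) (hj : 1 ≤ j) : 2 * j + 1 ≤ pr j := by
  induction j with
  | zero => omega
  | succ j ih =>
    rcases Nat.eq_zero_or_pos j with h | h
    · subst h
      have h3 : pr (0 + 1) = 3 := p1
      rw [h3]
    · have h1 := ih h
      have h2 := pr_lt (Nat.lt_succ_self j)
      have h3 := pr_odd h
      have h4 := pr_odd hj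
      rw [Nat.succ_eq_add_one] at h2
      omega

/-- Chebyshev -/
lemma cheb (x k : ℕ) (hx : x + 1 ≤ 2 ^ k) : x ≤ k * (Nat.primeCounting x + 1) := by
  have h1 := Chebyshev.two_pow_le_mul_lcmUpto x
  have h2 : Nat.lcmUpto x ≤ (2 ^ k) ^ Nat.primeCounting x := by
    rw [Nat.lcmUpto_eq_prod_pow_log, ← Nat.primesLE_card_eq_primeCounting]
    apply Finset.prod_le_pow_card
    intro p hp
    have hx0 : x ≠ 0 := by
      rintro rfl
      have := Nat.le_of_mem_primesLE hp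
      have := Nat.two_le_of_mem_primesLE hp
      omega
    exact (Nat.pow_log_le_self p hx0).trans (by omega)
  have h3 : 2 ^ x ≤ 2 ^ (k * (Nat.primeCounting x + 1)) := by
    calc 2 ^ x ≤ (x + 1) * Nat.lcmUpto x := h1
      _ ≤ 2 ^ k * (2 ^ k) ^ Nat.primeCounting x := Nat.mul_le_mul hx h2
      _ = _ := by ring
  exact (Nat.pow_le_pow_iff_right (by norm_num)).1 h3

lemma pc (L : ℕ) : Nat.primeCounting (pr L - 1) = L := by
  have h1 := Nat.primeCounting'_nth_eq L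
  have h2 := (pr_prime L).two_le
  have e : pr L = pr L - 1 + 1 := by omega
  unfold Nat.primeCounting
  rw [← e]
  exact h1

lemma two_pow_ge (k : ℕ) (hk : 12 ≤ k) : k ^ 3 ≤ 2 ^ (k - 1) := by
  obtain ⟨m, rfl⟩ : ∃ m, k = m + 12 := ⟨k - 12, by omega⟩
  have e : m + 12 - 1 = m + 11 := by omega
  rw [e]
  clear hk e
  induction m with
  | zero => norm_num
  | succ m ih =>
    have h1 : 2 ^ (m + 1 + 11) = 2 * 2 ^ (m + 11) := by ring
    rw [h1]
    have h2 : (m + 1 + 12) ^ 3 ≤ 2 * (m + 12) ^ 3 := by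
      nlinarith [sq_nonneg (m : ℤ), Nat.zero_le m, Nat.zero_le (m ^ 2), Nat.zero_le (m ^ 3)]
    omega

/-- the bound for the `L`-th prime in terms of `L` -/
lemma main_bound (L : ℕ) (h : 2237 ≤ pr L) : (pr L - 1) ^ 2 ≤ (L + 1) ^ 3 := by
  obtain ⟨x, hx⟩ : ∃ x, x = pr L - 1 := ⟨_, rfl⟩
  have hx2 : 2236 ≤ x := by omega
  obtain ⟨k, hk⟩ : ∃ k, k = Nat.log 2 x + 1 := ⟨_, rfl⟩
  have h1 : x + 1 ≤ 2 ^ k := by
    rw [hk]
    exact Nat.lt_pow_succ_log_self (by norm_num) x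
  have h2 : 2 ^ (k - 1) ≤ x := by
    rw [hk, Nat.add_sub_cancel]
    exact Nat.pow_log_le_self 2 (by omega)
  have h3 : 12 ≤ k := by
    by_contra hcon
    have : k ≤ 11 := by omega
    have h4 : 2 ^ k ≤ 2 ^ 11 := Nat.pow_le_pow_right (by norm_num) this
    have : (2 : ℕ) ^ 11 = 2048 := by norm_num
    omega
  have h4 := two_pow_ge k h3
  have h5 := cheb x k h1
  rw [hx, pc, ← hx] at h5
  rw [← hx]
  have h6 : k ^ 3 ≤ x := h4.trans h2
  have hk0 : 0 < k ^ 3 := by positivity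
  have h7 : x ^ 2 * k ^ 3 ≤ (L + 1) ^ 3 * k ^ 3 := by
    calc x ^ 2 * k ^ 3 ≤ x ^ 2 * x := Nat.mul_le_mul_left _ h6
      _ = x ^ 3 := by ring
      _ ≤ (k * (L + 1)) ^ 3 := Nat.pow_le_pow_left h5 3
      _ = _ := by ring
  exact Nat.le_of_mul_le_mul_right h7 hk0

/-- the sum of the `p_j ^ 2 - p_j` for `10 ≤ j < L` -/
noncomputable def W (L : ℕ) : ℕ := ∑ j ∈ Ico 10 L, (pr j ^ 2 - pr j)

lemma W_ge (L : ℕ) (hL : 10 ≤ L) : L * (L - 1) * (4 * L + 1) ≤ 3 * W L + 3 * 1230 := by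
  induction L, hL using Nat.le_induction with
  | base => simp [W]
  | succ L hL ih =>
    have e : W (L + 1) = W L + (pr L ^ 2 - pr L) := by
      unfold W
      rw [sum_Ico_succ_top hL]
    rw [e]
    have h1 := pr_ge L (by omega)
    have h2 : (2 * L + 1) * (2 * L) ≤ pr L ^ 2 - pr L := by
      obtain ⟨t, ht⟩ : ∃ t, pr L = t + 1 := ⟨pr L - 1, by omega⟩
      rw [ht]
      have e2 : (t + 1) ^ 2 - (t + 1) = (t + 1) * t := by
        have : (t + 1) ^ 2 = (t + 1) * t + (t + 1) := by ring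
        omega
      rw [e2]
      exact Nat.mul_le_mul (by omega) (by omega)
    obtain ⟨s, rfl⟩ : ∃ s, L = s + 1 := ⟨L - 1, by omega⟩
    have e3 : (s + 1 + 1) * (s + 1 + 1 - 1) * (4 * (s + 1 + 1) + 1) =
        (s + 1) * (s + 1 - 1) * (4 * (s + 1) + 1) + 3 * ((2 * (s + 1) + 1) * (2 * (s + 1))) := by
      simp only [Nat.add_sub_cancel]
      ring
    rw [e3]
    omega

/-- the condition of the induction step -/
lemma cond (L : ℕ) (hL : 10 ≤ L) : pr L ^ 2 ≤ pr L + (4999998 + W L) := by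
  rcases Nat.lt_or_ge (pr L) 2237 with h | h
  · have h1 : pr L ≤ 2236 := by omega
    have h2 : pr L ^ 2 = pr L * pr L := by ring
    have h3 : pr L * pr L ≤ pr L + 4999998 := by
      nlinarith
    omega
  · have h1 := main_bound L h
    have h2 := W_ge L hL
    obtain ⟨x, hx⟩ : ∃ x, pr L = x + 1 := ⟨pr L - 1, by omega⟩
    rw [hx] at h1 ⊢
    simp only [Nat.add_sub_cancel] at h1
    have hx2 : 2236 ≤ x := by omega
    -- `L ≥ 150`
    have hL2 : 150 ≤ L := by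
      by_contra hcon
      have h3 : L + 1 ≤ 150 := by omega
      have h4 : (L + 1) ^ 3 ≤ 150 ^ 3 := Nat.pow_le_pow_left h3 3
      have h5 : 2236 ^ 2 ≤ x ^ 2 := Nat.pow_le_pow_left hx2 2
      omega
    obtain ⟨m, rfl⟩ : ∃ m, L = m + 150 := ⟨L - 150, by omega⟩
    have e1 : m + 150 - 1 = m + 149 := by omega
    rw [e1] at h2
    have h6 : 39 * (m + 150 + 1) ^ 3 ≤ 10 * ((m + 150) * (m + 149) * (4 * (m + 150) + 1)) := by
      nlinarith [Nat.zero_le m, Nat.zero_le (m ^ 2), Nat.zero_le (m ^ 3)]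
    have h7 : 3 * (x * x) + 3 * x ≤ 3 * W (m + 150) + 3 * 1230 := by
      nlinarith
    nlinarith

end Pool.Agent.X32.Pow
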