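import Pool.Agent.X32.Pow.Growth

/-! Every integer `n ≥ 34` is a sum of positive powers of the first `L` primes. -/

set_option autoImplicit false

namespace Pool.Agent.X32.Pow

open Finset

/-- lower end of the range -/
noncomputable def A (L : ℕ) : ℕ := 245 + ∑ j ∈ Ico 10 L, pr j

/-- upper end of the range -/
noncomputable def B (L : ℕ) : ℕ := 5000243 + ∑ j ∈ Ico 10 L, pr j ^ 2

lemma A_succ {L : ℕ} (hL : 10 ≤ L) : A (L + 1) = A L + pr L := by
  unfold A
  rw [sum_Ico_succ_top hL]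
  ring

lemma B_succ {L : ℕ} (hL : 10 ≤ L) : B (L + 1) = B L + pr L ^ 2 := by
  unfold B
  rw [sum_Ico_succ_top hL]
  ring

lemma AB (L : ℕ) : B L = A L + (4999998 + W L) := by
  have h : ∑ j ∈ Ico 10 L, pr j ^ 2 = ∑ j ∈ Ico 10 L, pr j + W L := by
    unfold W
    rw [← sum_add_distrib]
    apply sum_congr rfl
    intro j _
    have : pr j ≤ pr j ^ 2 := Nat.le_self_pow (by norm_num) _
    omega
  unfold A B
  omega

lemma range_rep (L : ℕ) (hL : 10 ≤ L) : ∀ n, A L ≤ n → n ≤ B L → n % 2 = (L + 1) % 2 → Rep L n := by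
  induction L, hL using Nat.le_induction with
  | base =>
    intro n h1 h2 h3
    simp only [A, B, Ico_self, sum_empty, add_zero] at h1 h2
    exact base10 n h1 h2 (by omega)
  | succ L hL ih =>
    intro n h1 h2 h3
    rw [A_succ hL] at h1
    rw [B_succ hL] at h2
    have hodd := pr_odd (show 1 ≤ L by omega)
    have hodd2 : pr L ^ 2 % 2 = 1 := by
      rw [Nat.pow_mod, hodd]
    have hc := cond L hL
    have hab := AB L
    rcases Nat.lt_or_ge (B L + pr L) n with h | h
    · have h4 : Rep L (n - pr L ^ 2) := by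
        apply ih
        · omega
        · omega
        · omega
      have h5 := rep_step h4 2 (by norm_num)
      have e : n - pr L ^ 2 + Nat.nth Nat.Prime L ^ 2 = n := by
        have : Nat.nth Nat.Prime L = pr L := rfl
        rw [this]
        omega
      rwa [e] at h5
    · have h4 : Rep L (n - pr L) := by
        apply ih
        · omega
        · omega
        · omega
      have h5 := rep_step h4 1 (by norm_num)
      have e : n - pr L + Nat.nth Nat.Prime L ^ 1 = n := by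
        have : Nat.nth Nat.Prime L = pr L := rfl
        rw [this, pow_one]
        omega
      rwa [e] at h5

lemma pr_succ_le (L : ℕ) : pr (L + 1) ≤ 2 * pr L := by
  obtain ⟨q, hq, h1, h2⟩ := Nat.exists_prime_lt_and_le_two_mul (pr L) (pr_prime L).ne_zero
  refine le_trans ?_ h2
  have h3 : Nat.count Nat.Prime q ≥ L + 1 := by
    by_contra hcon
    push Not at hcon
    have h4 : q ≤ pr L := by
      have h5 : Nat.nth Nat.Prime (Nat.count Nat.Prime q) = q := Nat.nth_count hq
      rw [← h5]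
      exact Nat.nth_monotone Nat.infinite_setOfPred_prime (by omega)
    omega
  have h5 : Nat.nth Nat.Prime (Nat.count Nat.Prime q) = q := Nat.nth_count hq
  rw [← h5]
  exact Nat.nth_monotone Nat.infinite_setOfPred_prime h3

lemma step_cover (L : ℕ) (hL : 10 ≤ L) : A (L + 2) ≤ B L := by
  rw [A_succ (by omega), A_succ hL]
  have h1 := pr_succ_le L
  have h2 := cond L hL
  have h3 := AB L
  have h4 := pr_ge L (by omega)
  have h5 : pr L ^ 2 = pr L * pr L := by ring
  have h6 : 4 * pr L ≤ pr L * pr L := Nat.mul_le_mul_right _ (by omega)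
  omega

lemma A_ge (L : ℕ) (hL : 10 ≤ L) : L ≤ A L := by
  induction L, hL using Nat.le_induction with
  | base => simp [A]
  | succ L hL ih =>
    rw [A_succ hL]
    have := pr_ge L (by omega)
    omega

/-- every integer from `276` on is representable -/
lemma large (n : ℕ) (hn : 276 ≤ n) : ∃ L, 1 ≤ L ∧ Rep L n := by
  classical
  -- the largest `L` of the right parity with `A L ≤ n`
  have hex : ∃ t : ℕ, n < A (10 + (n + 1) % 2 + 2 * (t + 1)) := by
    refine ⟨n, ?_⟩
    have := A_ge (10 + (n + 1) % 2 + 2 * (n + 1)) (by omega)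
    omega
  obtain ⟨t, ht⟩ : ∃ t, t = Nat.find hex := ⟨_, rfl⟩
  have h1 : n < A (10 + (n + 1) % 2 + 2 * (t + 1)) := by
    rw [ht]
    exact Nat.find_spec hex
  have h2 : A (10 + (n + 1) % 2 + 2 * t) ≤ n := by
    rcases Nat.eq_zero_or_pos t with h | h
    · rw [h]
      rcases Nat.mod_two_eq_zero_or_one (n + 1) with h0 | h0
      · rw [h0]
        simp [A]
        omega
      · rw [h0]
        have e : A (10 + 1 + 2 * 0) = 276 := by
          have h3 : pr 10 = 31 := p10
          have h4 : A (10 + 1) = A 10 + pr 10 := A_succ (le_refl 10)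
          have h5 : A 10 = 245 := by simp [A]
          show A (10 + 1) = 276
          omega
        omega
    · have h3 := Nat.find_min hex (m := t - 1) (by omega)
      rw [not_lt] at h3
      have e : t - 1 + 1 = t := by omega
      rw [e] at h3
      exact h3
  refine ⟨10 + (n + 1) % 2 + 2 * t, by omega, range_rep _ (by omega) n h2 ?_ (by omega)⟩
  have h3 := step_cover (10 + (n + 1) % 2 + 2 * t) (by omega)
  have e : 10 + (n + 1) % 2 + 2 * (t + 1) = 10 + (n + 1) % 2 + 2 * t + 2 := by ring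
  rw [e] at h1
  omega

lemma pow_bound {p a b n : ℕ} (h : p ^ a ≤ n) (h2 : n < p ^ (b + 1)) (hp : 1 < p) : a ≤ b := by
  by_contra hcon
  have : p ^ (b + 1) ≤ p ^ a := Nat.pow_le_pow_right (by omega) (by omega)
  omega

lemma v0 {a : ℕ} (ha : 1 ≤ a) (h : 2 ^ a ≤ 33) :
    2 ^ a = 2 ∨ 2 ^ a = 4 ∨ 2 ^ a = 8 ∨ 2 ^ a = 16 ∨ 2 ^ a = 32 := by
  have h1 : a ≤ 5 := pow_bound h (by norm_num) (by norm_num)
  interval_cases a <;> norm_num

lemma v1 {a : ℕ} (ha : 1 ≤ a) (h : 3 ^ a ≤ 33) : 3 ^ a = 3 ∨ 3 ^ a = 9 ∨ 3 ^ a = 27 := by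
  have h1 : a ≤ 3 := pow_bound h (by norm_num) (by norm_num)
  interval_cases a <;> norm_num

lemma v2 {a : ℕ} (ha : 1 ≤ a) (h : 5 ^ a ≤ 33) : 5 ^ a = 5 ∨ 5 ^ a = 25 := by
  have h1 : a ≤ 2 := pow_bound h (by norm_num) (by norm_num)
  interval_cases a <;> norm_num

lemma v3 {a : ℕ} (ha : 1 ≤ a) (h : 7 ^ a ≤ 33) : 7 ^ a = 7 := by
  have h1 : a ≤ 1 := pow_bound h (by norm_num) (by norm_num)
  interval_cases a
  norm_num

lemma v4 {a : ℕ} (ha : 1 ≤ a) (h : 11 ^ a ≤ 33) : 11 ^ a = 11 := by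
  have h1 : a ≤ 1 := pow_bound h (by norm_num) (by norm_num)
  interval_cases a
  norm_num

/-- the exceptions are not representable -/
lemma not_rep (n : ℕ) (hn : n ∈ exc) (L : ℕ) (hL : 1 ≤ L) : ¬ Rep L n := by
  rintro ⟨α, h1, h2⟩
  have hn33 : n ≤ 33 := by
    simp only [exc, List.mem_cons, List.not_mem_nil, or_false] at hn
    omega
  have g : ∀ j, Nat.nth Nat.Prime j ≤ Nat.nth Nat.Prime j ^ α j := fun j =>
    Nat.le_self_pow (by have := h1 j; omega) _
  -- `L ≤ 5`
  have hL5 : L ≤ 5 := by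
    by_contra hcon
    have h3 : ∑ j ∈ range 6, Nat.nth Nat.Prime j ^ α j ≤ n := by
      rw [h2]
      exact sum_le_sum_of_subset (range_subset_range.2 (by omega))
    have h4 : ∑ j ∈ range 6, Nat.nth Nat.Prime j ≤ n := (sum_le_sum fun j _ => g j).trans h3
    simp only [sum_range_succ, range_zero, sum_empty, p0, p1, p2, p3, p4, p5] at h4
    omega
  have w0 := v0 (h1 0)
  have w1 := v1 (h1 1)
  have w2 := v2 (h1 2)
  have w3 := v3 (h1 3)
  have w4 := v4 (h1 4)
  have h3 : L = 1 ∨ L = 2 ∨ L = 3 ∨ L = 4 ∨ L = 5 := by omega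
  have h4 : (L = 1 → n = 2 ^ α 0) ∧ (L = 2 → n = 2 ^ α 0 + 3 ^ α 1) ∧
      (L = 3 → n = 2 ^ α 0 + 3 ^ α 1 + 5 ^ α 2) ∧ (L = 4 → n = 2 ^ α 0 + 3 ^ α 1 + 5 ^ α 2 + 7 ^ α 3) ∧
      (L = 5 → n = 2 ^ α 0 + 3 ^ α 1 + 5 ^ α 2 + 7 ^ α 3 + 11 ^ α 4) := by
    refine ⟨?_, ?_, ?_, ?_, ?_⟩ <;> rintro rfl <;>
      simpa only [sum_range_succ, range_zero, sum_empty, p0, p1, p2, p3, p4, zero_add] using h2
  simp only [exc, List.mem_cons, List.not_mem_nil, or_false] at hn
  clear h2 g h1
  generalize 2 ^ α 0 = y0 at *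
  generalize 3 ^ α 1 = y1 at *
  generalize 5 ^ α 2 = y2 at *
  generalize 7 ^ α 3 = y3 at *
  generalize 11 ^ α 4 = y4 at *
  omega

/-- the integers which are not representable -/
theorem final (n : ℕ) (hn : 0 < n) : (∃ L, 1 ≤ L ∧ Rep L n) ↔ n ∉ exc := by
  constructor
  · rintro ⟨L, hL, h⟩ hexc
    exact not_rep n hexc L hL h
  · intro h
    rcases Nat.lt_or_ge n 276 with h1 | h1
    · exact small n hn (by omega) h
    · exact large n h1

end Pool.Agent.X32.Pow
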